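import Pool.Agent.W467.FO.F

/-!
# Rank two bundles on `P^n` invariant under a linear automorphism with two large eigenspaces

Let `E` be a rank two bundle on `P^n`, `g` an invertible matrix with `g^* E ≅ E`, and `l`, `m`
eigenvalues of `g` whose eigenspaces have dimension at least three.  If some line joining the two
eigenspaces has splitting type `(p, q)` with `(l / m)^(p - q) ≠ 1`, then `E` splits.  In
particular `E` splits if `c₁(E)` is odd and `l / m` is not of odd order, for instance if `g` is an
involution with both eigenspaces of dimension at least three.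
-/

set_option autoImplicit false

namespace Pool.Agent.Results.MP_b01859_ag.LinearSymmetry

open MvPolynomial H960VB

/-- the vectors of polynomials -/
abbrev Vec {n : ℕ} (E : Bundle2 n) : Type := Fin E.a → MvPolynomial (Fin (n + 1)) ℂ

/-- the polynomial `x ↦ p (g x)` -/
noncomputable def subst {n : ℕ} (g : Matrix (Fin (n + 1)) (Fin (n + 1)) ℂ)
    (p : MvPolynomial (Fin (n + 1)) ℂ) : MvPolynomial (Fin (n + 1)) ℂ :=
  aeval (fun s => ∑ t, C (g s t) * X t) p

/-- `Φ` is a lift to `E` of the automorphism `x ↦ g x` of `P^n`, that is, an isomorphism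
`g^* E ≅ E` in terms of sections: it maps sections of `E(d)` to sections of `E(d)`, is additive
and injective, and satisfies `Φ (p G) = (p ∘ g) Φ G` for all homogeneous polynomials `p`. -/
structure IsLift {n : ℕ} (E : Bundle2 n) (g : Matrix (Fin (n + 1)) (Fin (n + 1)) ℂ)
    (Φ : Vec E → Vec E) : Prop where
  sec : ∀ d G, E.IsSection d G → E.IsSection d (Φ G)
  add : ∀ d G G', E.IsSection d G → E.IsSection d G' → Φ (G + G') = Φ G + Φ G'
  semi : ∀ d e p G, E.IsSection d G → HomZ p e → Φ (p • G) = subst g p • Φ G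
  inj : ∀ d G, E.IsSection d G → Φ G = 0 → G = 0

/-- the eigenspace of `g` with eigenvalue `l` -/
def eigen {n : ℕ} (g : Matrix (Fin (n + 1)) (Fin (n + 1)) ℂ) (l : ℂ) :
    Submodule ℂ (Fin (n + 1) → ℂ) :=
  LinearMap.ker (g.mulVecLin - l • LinearMap.id)

theorem result {n : ℕ} (E : Bundle2 n) (g : Matrix (Fin (n + 1)) (Fin (n + 1)) ℂ)
    (hg : IsUnit g) (Φ : Vec E → Vec E) (hΦ : IsLift E g Φ)
    -- two eigenspaces of dimension at least three
    (l m : ℂ) (hl : 3 ≤ Module.finrank ℂ (eigen g l)) (hm : 3 ≤ Module.finrank ℂ (eigen g m))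
    -- a line joining them and its splitting type
    (P Q : Fin (n + 1) → ℂ) (hP : P ∈ eigen g l) (hP0 : P ≠ 0) (hQ : Q ∈ eigen g m) (hQ0 : Q ≠ 0)
    (p q : ℤ) (hpq : E.SplitsOn P Q p q) (hne : (l / m) ^ (p - q) ≠ 1) : E.Splits := by
  have hsub : ∀ p : MvPolynomial (Fin (n + 1)) ℂ, subst g p = lsub g.mulVecLin p := by
    intro p
    unfold subst lsub
    congr 2
    funext s
    refine Finset.sum_congr rfl fun t _ => ?_
    congr 2
    rw [Matrix.mulVecLin_apply, Matrix.mulVec_single_one]
    rfl
  let O : Pool.Agent.W467.FO.GOp E g.mulVecLin :=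
    { D := Φ
      sec := fun d G h => Pool.Agent.W615.sec_iff.2 (hΦ.sec d G (Pool.Agent.W615.sec_iff.1 h))
      add := fun d G G' h h' =>
        hΦ.add d G G' (Pool.Agent.W615.sec_iff.1 h) (Pool.Agent.W615.sec_iff.1 h')
      mul := by
        intro d e p G h hp
        rw [← hsub]
        exact hΦ.semi d e p G (Pool.Agent.W615.sec_iff.1 h) hp
      inj := by
        intro d G h h0 i
        have h1 := hΦ.inj d G (Pool.Agent.W615.sec_iff.1 h) (funext h0)
        rw [h1]
        rfl }
  have hinj : Function.Injective g.mulVecLin := by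
    intro x y h
    exact Matrix.mulVec_injective_iff_isUnit.2 hg h
  have e1 : g.mulVecLin P = l • P := by
    have h1 := LinearMap.mem_ker.1 hP
    rw [LinearMap.sub_apply, LinearMap.smul_apply, LinearMap.id_apply, sub_eq_zero] at h1
    exact h1
  have e2 : g.mulVecLin Q = m • Q := by
    have h1 := LinearMap.mem_ker.1 hQ
    rw [LinearMap.sub_apply, LinearMap.smul_apply, LinearMap.id_apply, sub_eq_zero] at h1
    exact h1
  exact Pool.Agent.W467.FO.main O hinj hl hm hP0 hQ0 e1 e2 hpq hne

end Pool.Agent.Results.MP_b01859_ag.LinearSymmetry
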