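import Pool.Agent.W615.LA4

/-!
# Zero schemes which are smooth at the intermediate fixed points

Let `E` be a vector bundle of rank two on `P^n` and let `s` be a section of a twist of `E` such that
the pair `(E, s)` has an infinitesimal symmetry: a non-scalar linear vector field `x ↦ A x` lifts to
an operator `D` on the sections of the twists of `E`, with `D s = μ s`.  We call an eigenvector of `A`
intermediate if its eigenvalue is strictly inside a segment joining two eigenvalues of `A`.
If `n ≥ 8`, or if `n ≥ 4` and there are five independent intermediate eigenvectors, and if the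
scheme of zeros of `s` is smooth of codimension two at all those of its points which are
intermediate eigenvectors (no condition at its other points), then `E` splits.
-/

set_option autoImplicit false

namespace Pool.Agent.Results.MP_b01859_ag.PartlySmooth

open MvPolynomial H960VB

/-- the vectors of polynomials -/
abbrev Vec {n : ℕ} (E : Bundle2 n) : Type := Fin E.a → MvPolynomial (Fin (n + 1)) ℂ

/-- the derivative of `p` in the direction of the linear vector field `x ↦ A x` -/
noncomputable def along {n : ℕ} (A : Matrix (Fin (n + 1)) (Fin (n + 1)) ℂ)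
    (p : MvPolynomial (Fin (n + 1)) ℂ) : MvPolynomial (Fin (n + 1)) ℂ :=
  ∑ s, pderiv s p * (∑ t, C (A s t) * X t)

/-- `D` is a lift to `E` of the vector field `x ↦ A x`: an operator on the sections of the twists
`E(d)`, `d ∈ ℤ`, which preserves `d`, is additive and satisfies
`D (p G) = A(p) G + p D G` for all homogeneous polynomials `p`. -/
structure IsLift {n : ℕ} (E : Bundle2 n) (A : Matrix (Fin (n + 1)) (Fin (n + 1)) ℂ)
    (D : Vec E → Vec E) : Prop where
  sec : ∀ d G, E.IsSection d G → E.IsSection d (D G)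
  add : ∀ d G G', E.IsSection d G → E.IsSection d G' → D (G + G') = D G + D G'
  leib : ∀ d e p G, E.IsSection d G → HomZ p e → D (p • G) = along A p • G + p • D G

/-- `x` is an eigenvector of `A`, of eigenvalue `v` -/
def Eigen {n : ℕ} (A : Matrix (Fin (n + 1)) (Fin (n + 1)) ℂ) (v : ℂ) (x : Fin (n + 1) → ℂ) :
    Prop := x ≠ 0 ∧ A.mulVec x = v • x

/-- `v` lies strictly inside the segment joining two different eigenvalues of `A` -/
def Between {n : ℕ} (A : Matrix (Fin (n + 1)) (Fin (n + 1)) ℂ) (v : ℂ) : Prop :=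
  ∃ (α β : ℂ) (t : ℝ), α ≠ β ∧ (∃ x, Eigen A α x) ∧ (∃ y, Eigen A β y) ∧ 0 < t ∧ t < 1 ∧
    v = α + t * (β - α)

/-- the derivative of the vector `s` with respect to `x_l`, at the point `x` -/
noncomputable def dv {n : ℕ} {E : Bundle2 n} (s : Vec E) (x : Fin (n + 1) → ℂ)
    (l : Fin (n + 1)) : Fin E.a → ℂ := fun i => eval x (pderiv l (s i))

/-- the derivative of `s` at `x` has rank at least two; if `s` vanishes at `x`, the scheme of zeros
of `s` is then smooth of codimension two at `x`. -/
def SmoothAt {n : ℕ} {E : Bundle2 n} (s : Vec E) (x : Fin (n + 1) → ℂ) : Prop :=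
  ∃ l l', LinearIndependent ℂ ![dv s x l, dv s x l']

theorem result {n : ℕ} (hn : 4 ≤ n) (E : Bundle2 n)
    (A : Matrix (Fin (n + 1)) (Fin (n + 1)) ℂ) (hA : ∀ c : ℂ, A ≠ c • 1) (D : Vec E → Vec E)
    (hD : IsLift E A D) (d : ℤ) (s : Vec E) (hs : E.IsSection d s) (μ : ℂ) (hμ : D s = μ • s)
    (hfive : 8 ≤ n ∨ ∃ u : Fin 5 → Fin (n + 1) → ℂ, LinearIndependent ℂ u ∧
      ∀ k, ∃ v : ℂ, Eigen A v (u k) ∧ Between A v)
    (hsm : ∀ (z : Fin (n + 1) → ℂ) (v : ℂ), Eigen A v z → Between A v → evv s z = 0 →
      SmoothAt s z) : E.Splits := by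
  by_contra hE
  have hiff : ∀ x, SmoothAt s x ↔ Pool.Agent.W615.SmoothAt s x := by
    intro x
    constructor
    · rintro ⟨l, l', h⟩
      rw [H938TB.T3aux.li_iff] at h
      obtain ⟨i, i', h⟩ := h
      exact ⟨l, l', i, i', h⟩
    · rintro ⟨l, l', i, i', h⟩
      exact ⟨l, l', (H938TB.T3aux.li_iff _ _).2 ⟨i, i', h⟩⟩
  have hs' := Pool.Agent.W615.sec_of_isSection hs
  have hl : (Pool.Agent.W615.mkOp D hD.sec hD.add hD.leib).D s = fun i => C μ * s i := by
    show D s = fun i => C μ * s i
    rw [hμ]
    funext i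
    rw [Pi.smul_apply, smul_eq_C_mul]
  obtain ⟨z, v, hz, hzv, hb, h0, h1⟩ := Pool.Agent.W615.five_main' hn hE
    (Pool.Agent.W615.mkOp D hD.sec hD.add hD.leib) hA hs' hl (by
      rcases hfive with h | ⟨u, hu, hk⟩
      · exact Or.inl h
      · refine Or.inr ⟨u, hu, fun k => ?_⟩
        obtain ⟨v, h1, h2⟩ := hk k
        exact ⟨v, h1.2, h2⟩)
  exact h1 ((hiff z).1 (hsm z v ⟨hz, hzv⟩ hb h0))

end Pool.Agent.Results.MP_b01859_ag.PartlySmooth
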