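import Pool.Agent.W615.LA4

/-!
# Smooth zeros of invariant sections of bundles of rank two

Let `n ≥ 4`, let `E` be a vector bundle of rank two on `P^n` and let `s` be a section of a twist of
`E` such that the pair `(E, s)` has an infinitesimal symmetry: a non-scalar linear vector field
`x ↦ A x` lifts to an operator `D` on the sections of the twists of `E`, with `D s = μ s`.  Suppose
that `s` vanishes, with a derivative of rank two, at two eigenvectors `x`, `y` of `A` with different
eigenvalues, each of them strictly inside a segment joining two eigenvalues of `A`.  If `n ≥ 6`, or if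
there is a third independent eigenvector whose eigenvalue is strictly inside such a segment, then `E`
splits.  No condition is imposed on the zeros of `s` at other points.
-/

set_option autoImplicit false

namespace Pool.Agent.Results.MP_b01859_ag.SmoothZeros

open MvPolynomial H960VB

/-- the vectors of polynomials -/
abbrev Vec {n : ℕ} (E : Bundle2 n) : Type := Fin E.a → MvPolynomial (Fin (n + 1)) ℂ

/-- the derivative of `p` in the direction of the linear vector field `x ↦ A x` -/
noncomputable def along {n : ℕ} (A : Matrix (Fin (n + 1)) (Fin (n + 1)) ℂ)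
    (p : MvPolynomial (Fin (n + 1)) ℂ) : MvPolynomial (Fin (n + 1)) ℂ :=
  ∑ s, pderiv s p * (∑ t, C (A s t) * X t)

/-- `D` is a lift to `E` of the vector field `x ↦ A x`: an operator on the sections of the twists
`E(d)`, `d ∈ ℤ`, which preserves `d`, is additive and satisfies
`D (p G) = A(p) G + p D G` for all homogeneous polynomials `p`. -/
structure IsLift {n : ℕ} (E : Bundle2 n) (A : Matrix (Fin (n + 1)) (Fin (n + 1)) ℂ)
    (D : Vec E → Vec E) : Prop where
  sec : ∀ d G, E.IsSection d G → E.IsSection d (D G)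
  add : ∀ d G G', E.IsSection d G → E.IsSection d G' → D (G + G') = D G + D G'
  leib : ∀ d e p G, E.IsSection d G → HomZ p e → D (p • G) = along A p • G + p • D G

/-- `x` is an eigenvector of `A`, of eigenvalue `v` -/
def Eigen {n : ℕ} (A : Matrix (Fin (n + 1)) (Fin (n + 1)) ℂ) (v : ℂ) (x : Fin (n + 1) → ℂ) :
    Prop := x ≠ 0 ∧ A.mulVec x = v • x

/-- `v` lies strictly inside the segment joining two different eigenvalues of `A` -/
def Between {n : ℕ} (A : Matrix (Fin (n + 1)) (Fin (n + 1)) ℂ) (v : ℂ) : Prop :=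
  ∃ (α β : ℂ) (t : ℝ), α ≠ β ∧ (∃ x, Eigen A α x) ∧ (∃ y, Eigen A β y) ∧ 0 < t ∧ t < 1 ∧
    v = α + t * (β - α)

/-- the derivative of the vector `s` with respect to `x_l`, at the point `x` -/
noncomputable def dv {n : ℕ} {E : Bundle2 n} (s : Vec E) (x : Fin (n + 1) → ℂ)
    (l : Fin (n + 1)) : Fin E.a → ℂ := fun i => eval x (pderiv l (s i))

/-- the derivative of `s` at `x` has rank at least two; if `s` vanishes at `x`, the scheme of zeros
of `s` is then smooth of codimension two at `x`. -/
def SmoothAt {n : ℕ} {E : Bundle2 n} (s : Vec E) (x : Fin (n + 1) → ℂ) : Prop :=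
  ∃ l l', LinearIndependent ℂ ![dv s x l, dv s x l']

theorem result {n : ℕ} (hn : 4 ≤ n) (E : Bundle2 n)
    (A : Matrix (Fin (n + 1)) (Fin (n + 1)) ℂ) (D : Vec E → Vec E)
    (hD : IsLift E A D) (d : ℤ) (s : Vec E) (hs : E.IsSection d s) (μ : ℂ) (hμ : D s = μ • s)
    (x y : Fin (n + 1) → ℂ) (v v' : ℂ) (hx : Eigen A v x) (hy : Eigen A v' y) (hv : Between A v)
    (hv' : Between A v') (hvv : v ≠ v')
    (hthird : 6 ≤ n ∨ ∃ (z : Fin (n + 1) → ℂ) (v'' : ℂ), Eigen A v'' z ∧ Between A v'' ∧
      LinearIndependent ℂ ![x, y, z])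
    (zx : evv s x = 0) (zy : evv s y = 0) (sx : SmoothAt s x) (sy : SmoothAt s y) :
    E.Splits := by
  by_contra hE
  have hA : ∀ c : ℂ, A ≠ c • 1 := by
    rintro c rfl
    apply hvv
    have h1 : ∀ (v : ℂ) (x : Fin (n + 1) → ℂ),
        Eigen (c • (1 : Matrix (Fin (n + 1)) (Fin (n + 1)) ℂ)) v x → v = c := by
      rintro v x ⟨hx0, hx⟩
      rw [Matrix.smul_mulVec, Matrix.one_mulVec] at hx
      have h2 : (c - v) • x = 0 := by rw [sub_smul, hx, sub_self]
      exact (sub_eq_zero.1 ((smul_eq_zero.1 h2).resolve_right hx0)).symm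
    rw [h1 v x hx, h1 v' y hy]
  have hiff : ∀ x, SmoothAt s x ↔ Pool.Agent.W615.SmoothAt s x := by
    intro x
    constructor
    · rintro ⟨l, l', h⟩
      rw [H938TB.T3aux.li_iff] at h
      obtain ⟨i, i', h⟩ := h
      exact ⟨l, l', i, i', h⟩
    · rintro ⟨l, l', i, i', h⟩
      exact ⟨l, l', (H938TB.T3aux.li_iff _ _).2 ⟨i, i', h⟩⟩
  have hs' := Pool.Agent.W615.sec_of_isSection hs
  have hl : (Pool.Agent.W615.mkOp D hD.sec hD.add hD.leib).D s = fun i => C μ * s i := by
    show D s = fun i => C μ * s i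
    rw [hμ]
    funext i
    rw [Pi.smul_apply, smul_eq_C_mul]
  refine hvv (Pool.Agent.W615.pair_main' hn hE (Pool.Agent.W615.mkOp D hD.sec hD.add hD.leib) hA
    hs' hl hx.1 hy.1 hx.2 hy.2 hv hv' ?_ zx zy ((hiff x).1 sx) ((hiff y).1 sy))
  rcases hthird with h | ⟨z, v'', hz, hb, hli⟩
  · exact Or.inl h
  · exact Or.inr ⟨z, v'', hli, hz.2, hb⟩

end Pool.Agent.Results.MP_b01859_ag.SmoothZeros
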