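import Pool.Agent.W615.X10

/-!
# The infinitesimal symmetries of an indecomposable bundle of rank two on `P^n`, `n ≥ 4`

Let `E` be an indecomposable vector bundle of rank two on `P^n`, `n ≥ 4`.  The linear vector fields
`x ↦ N x` which lift to `E` form a Lie algebra containing the scalar matrices.  Modulo the scalars
it has dimension at most one, and it is generated by a diagonalisable matrix with integer
eigenvalues.

So the group of the automorphisms of `P^n` preserving `E` is finite, or its identity component is a
one-dimensional torus; the map from `H^0(T_{P^n})` to `H^1(End E)` given by the Atiyah class has a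
kernel of dimension at most one, and `h^1(End E) ≥ n^2 + 2 n - 1`.
-/

set_option autoImplicit false

namespace Pool.Agent.Results.MP_b01859_ag.SymmetryAlgebra

open MvPolynomial H960VB

/-- the vectors of polynomials -/
abbrev Vec {n : ℕ} (E : Bundle2 n) : Type := Fin E.a → MvPolynomial (Fin (n + 1)) ℂ

/-- the derivative of `p` in the direction of the linear vector field `x ↦ N x` -/
noncomputable def along {n : ℕ} (N : Matrix (Fin (n + 1)) (Fin (n + 1)) ℂ)
    (p : MvPolynomial (Fin (n + 1)) ℂ) : MvPolynomial (Fin (n + 1)) ℂ :=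
  ∑ s, pderiv s p * (∑ t, C (N s t) * X t)

/-- `D` is a lift to `E` of the vector field `x ↦ N x`: an operator on the sections of the twists
`E(d)`, `d ∈ ℤ`, which preserves `d`, is additive and satisfies
`D (p G) = N(p) G + p D G` for all homogeneous polynomials `p`. -/
structure IsLift {n : ℕ} (E : Bundle2 n) (N : Matrix (Fin (n + 1)) (Fin (n + 1)) ℂ)
    (D : Vec E → Vec E) : Prop where
  sec : ∀ d G, E.IsSection d G → E.IsSection d (D G)
  add : ∀ d G G', E.IsSection d G → E.IsSection d G' → D (G + G') = D G + D G'
  leib : ∀ d e p G, E.IsSection d G → HomZ p e → D (p • G) = along N p • G + p • D G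

theorem result {n : ℕ} (hn : 4 ≤ n) (E : Bundle2 n) (hE : ¬ E.Splits) :
    ∃ (P P' : Matrix (Fin (n + 1)) (Fin (n + 1)) ℂ) (w : Fin (n + 1) → ℤ), P * P' = 1 ∧
      ∀ (N : Matrix (Fin (n + 1)) (Fin (n + 1)) ℂ) (D : Vec E → Vec E), IsLift E N D →
        ∃ a b : ℂ, N = a • (P * Matrix.diagonal (fun i => (w i : ℂ)) * P') + b • 1 := by
  obtain ⟨P, P', w, h1, h2⟩ := Pool.Agent.W615.structure_main hn hE
  exact ⟨P, P', w, h1, fun N D hD => h2 N ⟨Pool.Agent.W615.mkOp D hD.sec hD.add hD.leib⟩⟩

end Pool.Agent.Results.MP_b01859_ag.SymmetryAlgebra
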